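import Pool.Agent.Helper446.Comp

/-!
# Minimal covers in the btte-degrees

Problem MP_36bef2_lc, Q1, answered in the negative: the degree of the complement of the halting
problem has at most countably many minimal covers in the btte-degrees, and so has every
btte-degree above it.

Proof.  Let `K'` be the complement of the halting set and let `K' ≤ X ≤ B` in the btte-degrees.
There is a function `j`, approximable from below, such that for every btt-like operator, the pair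
`(z, j z)` does not occur in the axioms for the numbers `y ≤ z`, for almost all `z`.  Then
`A B = {(z, j z) : z ∈ B} ⊕ X` satisfies `X ≤ A B ≤ B`.  If `A B ≤ X` via an operator, then `B` is
determined by this operator, being the projection of the first part of `A B`.  If `B ≤ A B` via an
operator, then membership of `y` in `B` depends only on the operator and on the membership in `B`
of the numbers which are smaller than `y` or than a constant, hence `B` is determined by the operator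
and a finite part of `B`.  In both cases there are only countably many such sets `B`.
-/

set_option autoImplicit false

namespace Pool.Agent.Results.MP_36bef2_lc.CountablyMany

open Pool.Agent.Helper446
open Pool.Agent.Helper446.RE (cid cconst ccomp cfst csnd cpair cadd csub cmul cmin cmax csucc
  cappend ccons clength cgetElem cencode cdecode csome cisSome cnot cand cor cunpair cnatpair
  cmapsnd cmapfst ccond)

/-! ### Definitions used in the statement -/

/-- The finite set with canonical index `u`: the positions of the digits `1` in the binary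
expansion of `u`. -/
def D (u : ℕ) : Set ℕ := {i | u.testBit i = true}

/-- Enumeration operators: c.e. sets of pairs `(x, u)`. -/
def IsOp (Ψ : Set (ℕ × ℕ)) : Prop := REPred fun p : ℕ × ℕ => p ∈ Ψ

/-- The set `Ψ^B`. -/
def app (Ψ : Set (ℕ × ℕ)) (B : Set ℕ) : Set ℕ := {x | ∃ u, (x, u) ∈ Ψ ∧ D u ⊆ B}

/-- The union of the finite sets in `ε_x`, that is, of the sets `D u` with `(x, u) ∈ Ψ`. -/
def supp (Ψ : Set (ℕ × ℕ)) (x : ℕ) : Set ℕ := {i | ∃ u, (x, u) ∈ Ψ ∧ i ∈ D u}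

/-- `Ψ` is btt-like: the unions of the finite sets in `ε_x` have at most `n` elements, for some
`n` and all `x`. -/
def BttLike (Ψ : Set (ℕ × ℕ)) : Prop := ∃ n : ℕ, ∀ x, (supp Ψ x).encard ≤ n

/-- The relation `A ≤_btte B`. -/
def Red (A B : Set ℕ) : Prop := ∃ Ψ, IsOp Ψ ∧ BttLike Ψ ∧ A = app Ψ B

/-! ### Canonical indices -/

theorem cpow : Computable fun n : ℕ => 2 ^ n := by
  refine (Computable.nat_rec (f := fun n : ℕ => n) (g := fun _ => 1)
    (h := fun (_ : ℕ) (y : ℕ × ℕ) => 2 * y.2) Computable.id (Computable.const 1) ?_).of_eq ?_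
  · exact Primrec.nat_mul.to_comp.comp (Computable.const 2) (Computable.snd.comp Computable.snd)
  · intro n
    induction n with
    | zero => rfl
    | succ n ih =>
      show 2 * _ = _
      rw [ih, pow_succ, mul_comm]

theorem cdivmod {α : Type*} [Primcodable α] {f g : α → ℕ} (hf : Computable f)
    (hg : Computable g) : Computable fun a => f a / 2 ^ g a % 2 := by
  have h1 : Computable fun a => f a / 2 ^ g a :=
    Primrec.nat_div.to_comp.comp hf (cpow.comp hg)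
  exact Primrec.nat_mod.to_comp.comp h1 (Computable.const 2)

theorem testBit_iff (u i : ℕ) : u.testBit i = true ↔ u / 2 ^ i % 2 = 1 := by
  rw [Nat.testBit_eq_decide_div_mod_eq]
  simp

/-- The list of the elements of `D u`. -/
def bits (u : ℕ) : List ℕ := (List.range u).filter fun i => decide (u / 2 ^ i % 2 = 1)

theorem mem_bits {u i : ℕ} : i ∈ bits u ↔ i ∈ D u := by
  simp only [bits, D, List.mem_filter, List.mem_range, decide_eq_true_eq, Set.mem_ofPred_eq,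
    testBit_iff]
  constructor
  · exact fun h => h.2
  · intro h
    refine ⟨?_, h⟩
    by_contra hc
    push Not at hc
    have h1 : u < 2 ^ i := lt_of_le_of_lt hc Nat.lt_two_pow_self
    rw [Nat.div_eq_of_lt h1] at h
    simp at h

@[fun_prop] theorem cbits : Computable bits := by
  have h : Computable fun u : ℕ => (List.range u).foldl
      (fun (s : List ℕ) (i : ℕ) => if u / 2 ^ i % 2 = 1 then s ++ [i] else s) [] := by
    refine RE.list_foldl (f := fun u => List.range u) (g := fun _ => ([] : List ℕ))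
      (h := fun u y => if u / 2 ^ y.2 % 2 = 1 then y.1 ++ [y.2] else y.1) ?_
      (Computable.const _) ?_
    · exact Primrec.list_range.to_comp
    · have h1 : Computable fun x : ℕ × (List ℕ × ℕ) => x.1 / 2 ^ x.2.2 % 2 :=
        cdivmod Computable.fst (by fun_prop)
      exact RE.cite (RE.cp_eq h1 (Computable.const 1)) (by fun_prop) (by fun_prop)
  refine h.of_eq fun u => ?_
  have key : ∀ (l : List ℕ) (s : List ℕ), l.foldl
      (fun (s : List ℕ) (i : ℕ) => if u / 2 ^ i % 2 = 1 then s ++ [i] else s) s =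
      s ++ l.filter fun i => decide (u / 2 ^ i % 2 = 1) := by
    intro l
    induction l with
    | nil => intro s; simp
    | cons a l ih =>
      intro s
      rw [List.foldl_cons, ih]
      by_cases ha : u / 2 ^ a % 2 = 1
      · simp [ha]
      · simp [ha]
  rw [key]
  rfl

/-- every finite list has a canonical index -/
theorem exists_index (l : List ℕ) : ∃ w : ℕ, ∀ i, i ∈ D w ↔ i ∈ l := by
  induction l with
  | nil => exact ⟨0, fun i => by simp [D]⟩
  | cons a l ih =>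
    obtain ⟨w, hw⟩ := ih
    refine ⟨2 ^ a ||| w, fun i => ?_⟩
    have h1 : i ∈ D w ↔ i ∈ l := hw i
    simp only [D, Set.mem_ofPred_eq, Nat.testBit_or, Bool.or_eq_true, List.mem_cons] at h1 ⊢
    rw [h1, Nat.testBit_two_pow]
    simp [eq_comm]

theorem D_pow (a : ℕ) : D (2 ^ a) = {a} := by
  ext i
  simp only [D, Set.mem_ofPred_eq, Nat.testBit_two_pow, decide_eq_true_eq, Set.mem_singleton_iff]
  exact eq_comm

theorem bttLike_iff {Ψ : Set (ℕ × ℕ)} :
    BttLike Ψ ↔ ∃ n : ℕ, ∀ x, ∃ F : Finset ℕ, F.card ≤ n ∧ supp Ψ x ⊆ F := by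
  constructor
  · rintro ⟨n, hn⟩
    refine ⟨n, fun x => ?_⟩
    have hfin : (supp Ψ x).Finite := Set.finite_of_encard_le_coe (hn x)
    refine ⟨hfin.toFinset, ?_, by simp⟩
    have h1 := hn x
    rw [hfin.encard_eq_coe_toFinset_card] at h1
    exact_mod_cast h1
  · rintro ⟨n, hn⟩
    refine ⟨n, fun x => ?_⟩
    obtain ⟨F, hF1, hF2⟩ := hn x
    refine (Set.encard_le_encard hF2).trans ?_
    rw [Set.encard_coe_eq_coe_finsetCard]
    exact_mod_cast hF1

/-! ### The preorder -/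

theorem red_refl (A : Set ℕ) : Red A A := by
  refine ⟨{p | p.2 = 2 ^ p.1}, ?_, ?_, ?_⟩
  · exact RE.eq (by fun_prop) (cpow.comp Computable.fst)
  · refine bttLike_iff.2 ⟨1, fun x => ⟨{x}, by simp, ?_⟩⟩
    rintro i ⟨u, hu, hi⟩
    have hu' : u = 2 ^ x := hu
    rw [hu', D_pow] at hi
    simpa using hi
  · ext x
    constructor
    · intro hx
      exact ⟨2 ^ x, rfl, by rw [D_pow]; simpa using hx⟩
    · rintro ⟨u, hu, h⟩
      have hu' : u = 2 ^ x := hu
      rw [hu', D_pow] at h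
      exact h rfl

theorem red_trans {A B C : Set ℕ} (h1 : Red A B) (h2 : Red B C) : Red A C := by
  obtain ⟨Ψ, hΨ, hb, rfl⟩ := h1
  obtain ⟨Φ, hΦ, hc, rfl⟩ := h2
  refine ⟨{p | ∃ u, (p.1, u) ∈ Ψ ∧ ∃ l : List (ℕ × ℕ), (∀ i ∈ bits u, ∃ q ∈ l, q.1 = i) ∧
    (∀ q ∈ l, q.1 ∈ bits u) ∧ (∀ q ∈ l, q ∈ Φ) ∧ (∀ i ∈ bits p.2, ∃ q ∈ l, i ∈ bits q.2) ∧
    ∀ q ∈ l, ∀ i ∈ bits q.2, i ∈ bits p.2}, ?_, ?_, ?_⟩
  · refine RE.ex (p := fun (p : ℕ × ℕ) (u : ℕ) => (p.1, u) ∈ Ψ ∧ ∃ l : List (ℕ × ℕ),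
      (∀ i ∈ bits u, ∃ q ∈ l, q.1 = i) ∧
      (∀ q ∈ l, q.1 ∈ bits u) ∧ (∀ q ∈ l, q ∈ Φ) ∧ (∀ i ∈ bits p.2, ∃ q ∈ l, i ∈ bits q.2) ∧
      ∀ q ∈ l, ∀ i ∈ bits q.2, i ∈ bits p.2) ?_
    refine RE.and (RE.comp (p := fun p : ℕ × ℕ => p ∈ Ψ) hΨ
      (f := fun x : (ℕ × ℕ) × ℕ => (x.1.1, x.2)) (by fun_prop)) ?_
    refine RE.ex (p := fun (x : (ℕ × ℕ) × ℕ) (l : List (ℕ × ℕ)) =>
      (∀ i ∈ bits x.2, ∃ q ∈ l, q.1 = i) ∧
      (∀ q ∈ l, q.1 ∈ bits x.2) ∧ (∀ q ∈ l, q ∈ Φ) ∧ (∀ i ∈ bits x.1.2, ∃ q ∈ l, i ∈ bits q.2) ∧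
      ∀ q ∈ l, ∀ i ∈ bits q.2, i ∈ bits x.1.2) ?_
    refine RE.and ?_ (RE.and ?_ (RE.and ?_ (RE.and ?_ ?_)))
    · refine RE.all_mem (p := fun (x : ((ℕ × ℕ) × ℕ) × List (ℕ × ℕ)) (i : ℕ) =>
        ∃ q ∈ x.2, q.1 = i) (l := fun x => bits x.1.2) ?_ (by fun_prop)
      exact RE.ex_mem (p := fun (x : (((ℕ × ℕ) × ℕ) × List (ℕ × ℕ)) × ℕ) (q : ℕ × ℕ) =>
        q.1 = x.2) (l := fun x => x.1.2) (RE.eq (by fun_prop) (by fun_prop)) (by fun_prop)
    · refine RE.all_mem (p := fun (x : ((ℕ × ℕ) × ℕ) × List (ℕ × ℕ)) (q : ℕ × ℕ) =>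
        q.1 ∈ bits x.1.2) (l := fun x => x.2) ?_ (by fun_prop)
      exact RE.mem_list (by fun_prop) (by fun_prop)
    · refine RE.all_mem (p := fun (x : ((ℕ × ℕ) × ℕ) × List (ℕ × ℕ)) (q : ℕ × ℕ) =>
        q ∈ Φ) (l := fun x => x.2) ?_ (by fun_prop)
      exact RE.comp (p := fun p : ℕ × ℕ => p ∈ Φ) hΦ (by fun_prop)
    · refine RE.all_mem (p := fun (x : ((ℕ × ℕ) × ℕ) × List (ℕ × ℕ)) (i : ℕ) =>
        ∃ q ∈ x.2, i ∈ bits q.2) (l := fun x => bits x.1.1.2) ?_ (by fun_prop)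
      refine RE.ex_mem (p := fun (x : (((ℕ × ℕ) × ℕ) × List (ℕ × ℕ)) × ℕ) (q : ℕ × ℕ) =>
        x.2 ∈ bits q.2) (l := fun x => x.1.2) ?_ (by fun_prop)
      exact RE.mem_list (by fun_prop) (by fun_prop)
    · refine RE.all_mem (p := fun (x : ((ℕ × ℕ) × ℕ) × List (ℕ × ℕ)) (q : ℕ × ℕ) =>
        ∀ i ∈ bits q.2, i ∈ bits x.1.1.2) (l := fun x => x.2) ?_ (by fun_prop)
      refine RE.all_mem (p := fun (x : (((ℕ × ℕ) × ℕ) × List (ℕ × ℕ)) × (ℕ × ℕ)) (i : ℕ) =>
        i ∈ bits x.1.1.1.2) (l := fun x => bits x.2.2) ?_ (by fun_prop)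
      exact RE.mem_list (by fun_prop) (by fun_prop)
  · obtain ⟨n, hn⟩ := bttLike_iff.1 hb
    obtain ⟨m, hm⟩ := bttLike_iff.1 hc
    refine bttLike_iff.2 ⟨n * m, fun x => ?_⟩
    obtain ⟨F, hF1, hF2⟩ := hn x
    choose G hG1 hG2 using hm
    refine ⟨F.biUnion G, ?_, ?_⟩
    · refine (Finset.card_biUnion_le_card_mul F G m fun i _ => hG1 i).trans ?_
      exact Nat.mul_le_mul_right _ hF1
    · rintro i ⟨w, ⟨u, hu, l, -, hl2, hl3, hl4, -⟩, hi⟩
      obtain ⟨q, hq, hiq⟩ := hl4 i (mem_bits.2 hi)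
      simp only [Finset.coe_biUnion, Set.mem_iUnion]
      refine ⟨q.1, hF2 ⟨u, hu, mem_bits.1 (hl2 q hq)⟩, hG2 q.1 ⟨q.2, hl3 q hq, mem_bits.1 hiq⟩⟩
  · ext x
    constructor
    · rintro ⟨u, hu, h⟩
      have h1 : ∀ i, ∃ v, i ∈ bits u → (i, v) ∈ Φ ∧ D v ⊆ C := by
        intro i
        by_cases hi : i ∈ bits u
        · obtain ⟨v, hv⟩ := h (mem_bits.1 hi)
          exact ⟨v, fun _ => hv⟩
        · exact ⟨0, fun h => absurd h hi⟩
      choose v hv using h1
      obtain ⟨w, hw⟩ := exists_index ((bits u).flatMap fun i => bits (v i))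
      refine ⟨w, ⟨u, hu, (bits u).map fun i => (i, v i), ?_, ?_, ?_, ?_, ?_⟩, ?_⟩
      · intro i hi
        exact ⟨(i, v i), List.mem_map.2 ⟨i, hi, rfl⟩, rfl⟩
      · intro q hq
        obtain ⟨i, hi, rfl⟩ := List.mem_map.1 hq
        exact hi
      · intro q hq
        obtain ⟨i, hi, rfl⟩ := List.mem_map.1 hq
        exact (hv i hi).1
      · intro i hi
        obtain ⟨k, hk, hik⟩ := List.mem_flatMap.1 ((hw i).1 (mem_bits.1 hi))
        exact ⟨(k, v k), List.mem_map.2 ⟨k, hk, rfl⟩, hik⟩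
      · intro q hq i hi
        obtain ⟨k, hk, rfl⟩ := List.mem_map.1 hq
        exact mem_bits.2 ((hw i).2 (List.mem_flatMap.2 ⟨k, hk, hi⟩))
      · intro i hi
        obtain ⟨k, hk, hik⟩ := List.mem_flatMap.1 ((hw i).1 hi)
        exact (hv k hk).2 (mem_bits.1 hik)
    · rintro ⟨w, ⟨u, hu, l, hl1, -, hl3, -, hl5⟩, hw⟩
      refine ⟨u, hu, fun i hi => ?_⟩
      obtain ⟨q, hq, rfl⟩ := hl1 i (mem_bits.2 hi)
      refine ⟨q.2, hl3 q hq, fun k hk => hw (mem_bits.1 (hl5 q hq k (mem_bits.2 hk)))⟩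

/-- The subsets of `ℕ`, preordered by `≤_btte`. -/
structure BSet where
  /-- the underlying set -/
  carrier : Set ℕ

instance : Preorder BSet where
  le A B := Red A.carrier B.carrier
  le_refl A := red_refl A.carrier
  le_trans _ _ _ h1 h2 := red_trans h1 h2

/-- The btte-degrees, with the order induced by `≤_btte`. -/
abbrev Degree : Type := Antisymmetrization BSet (· ≤ ·)

/-- The btte-degree of a set. -/
def deg (A : Set ℕ) : Degree := toAntisymmetrization (· ≤ ·) (BSet.mk A)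

/-- The halting set. -/
def K : Set ℕ :=
  {n | (Nat.Partrec.Code.eval (Denumerable.ofNat Nat.Partrec.Code n) n).Dom}

/-! ### Completeness of the halting set -/

theorem K_complete {W : ℕ → Prop} (hW : REPred W) :
    ∃ f : ℕ → ℕ, Computable f ∧ ∀ x, W x ↔ f x ∈ K := by
  obtain ⟨c, hc⟩ := Nat.Partrec.Code.exists_code.1
    (RE.comp hW (f := fun n : ℕ => n.unpair.1) (by fun_prop))
  refine ⟨fun x => Encodable.encode (Nat.Partrec.Code.curry c x), ?_, fun x => ?_⟩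
  · exact Computable.encode.comp
      (Nat.Partrec.Code.primrec₂_curry.to_comp.comp (Computable.const c) Computable.id)
  · show W x ↔ (Nat.Partrec.Code.eval (Denumerable.ofNat Nat.Partrec.Code _) _).Dom
    rw [Denumerable.ofNat_encode, Nat.Partrec.Code.eval_curry, hc]
    simp only [Encodable.decode_nat, Part.coe_some, Part.bind_some, Part.map_Dom]
    constructor
    · intro h
      exact ⟨by rw [Nat.unpair_pair]; exact h, trivial⟩
    · rintro ⟨h, -⟩
      rw [Nat.unpair_pair] at h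
      exact h

/-! ### The diagonal function -/

/-- `i` occurs in the axioms for `y` of the operator with index `e`, and this is seen at a stage at
which at most `n` elements occur in these axioms -/
def T (e n y i : ℕ) : Prop := ∃ s : ℕ, ∃ l : List ℕ, l.length ≤ n ∧
  (∀ u < s, RE.wst (ℕ × ℕ) e s (y, u) = false ∨ ∀ a ∈ bits u, a ∈ l) ∧
  ∃ u < s, RE.wst (ℕ × ℕ) e s (y, u) = true ∧ i ∈ bits u

theorem T_re : REPred fun x : ℕ × ℕ × ℕ × ℕ => T x.1 x.2.1 x.2.2.1 x.2.2.2 := by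
  have hw : ∀ b : Bool, REPred fun z : (ℕ × ℕ) × (ℕ × ℕ) => RE.wst (ℕ × ℕ) z.1.1 z.1.2 z.2 = b :=
    fun b => RE.eq RE.wst_comp (by fun_prop)
  refine RE.ex (p := fun (x : ℕ × ℕ × ℕ × ℕ) (s : ℕ) => ∃ l : List ℕ, l.length ≤ x.2.1 ∧
    (∀ u < s, RE.wst (ℕ × ℕ) x.1 s (x.2.2.1, u) = false ∨ ∀ a ∈ bits u, a ∈ l) ∧
    ∃ u < s, RE.wst (ℕ × ℕ) x.1 s (x.2.2.1, u) = true ∧ x.2.2.2 ∈ bits u) ?_
  refine RE.ex (p := fun (x : (ℕ × ℕ × ℕ × ℕ) × ℕ) (l : List ℕ) => l.length ≤ x.1.2.1 ∧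
    (∀ u < x.2, RE.wst (ℕ × ℕ) x.1.1 x.2 (x.1.2.2.1, u) = false ∨ ∀ a ∈ bits u, a ∈ l) ∧
    ∃ u < x.2, RE.wst (ℕ × ℕ) x.1.1 x.2 (x.1.2.2.1, u) = true ∧ x.1.2.2.2 ∈ bits u) ?_
  refine RE.and (RE.le (by fun_prop) (by fun_prop)) (RE.and ?_ ?_)
  · refine RE.all_lt (p := fun (x : ((ℕ × ℕ × ℕ × ℕ) × ℕ) × List ℕ) (u : ℕ) =>
      RE.wst (ℕ × ℕ) x.1.1.1 x.1.2 (x.1.1.2.2.1, u) = false ∨ ∀ a ∈ bits u, a ∈ x.2)
      (f := fun x => x.1.2) ?_ (by fun_prop)
    refine RE.or ?_ ?_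
    · exact RE.comp (hw false) (f := fun x : (((ℕ × ℕ × ℕ × ℕ) × ℕ) × List ℕ) × ℕ =>
        ((x.1.1.1.1, x.1.1.2), (x.1.1.1.2.2.1, x.2))) (by fun_prop)
    · refine RE.all_mem (p := fun (x : (((ℕ × ℕ × ℕ × ℕ) × ℕ) × List ℕ) × ℕ) (a : ℕ) =>
        a ∈ x.1.2) (l := fun x => bits x.2) ?_ (by fun_prop)
      exact RE.mem_list (by fun_prop) (by fun_prop)
  · refine RE.ex (p := fun (x : ((ℕ × ℕ × ℕ × ℕ) × ℕ) × List ℕ) (u : ℕ) => u < x.1.2 ∧
      RE.wst (ℕ × ℕ) x.1.1.1 x.1.2 (x.1.1.2.2.1, u) = true ∧ x.1.1.2.2.2 ∈ bits u) ?_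
    refine RE.and (RE.lt (by fun_prop) (by fun_prop)) (RE.and ?_ ?_)
    · exact RE.comp (hw true) (f := fun x : (((ℕ × ℕ × ℕ × ℕ) × ℕ) × List ℕ) × ℕ =>
        ((x.1.1.1.1, x.1.1.2), (x.1.1.1.2.2.1, x.2))) (by fun_prop)
    · exact RE.mem_list (by fun_prop) (by fun_prop)

theorem T_finite (e n y : ℕ) : {i | T e n y i}.Finite := by
  by_contra hinf
  obtain ⟨F, hF1, hF2⟩ := Set.Infinite.exists_subset_card_eq hinf (n + 1)
  have h1 : ∀ i, ∃ s, i ∈ F → ∃ l : List ℕ, l.length ≤ n ∧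
      (∀ u < s, RE.wst (ℕ × ℕ) e s (y, u) = false ∨ ∀ a ∈ bits u, a ∈ l) ∧
      ∃ u < s, RE.wst (ℕ × ℕ) e s (y, u) = true ∧ i ∈ bits u := by
    intro i
    by_cases hi : i ∈ F
    · obtain ⟨s, hs⟩ := hF1 hi
      exact ⟨s, fun _ => hs⟩
    · exact ⟨0, fun h => absurd h hi⟩
  choose s hs using h1
  have hne : F.Nonempty := by
    rw [← Finset.card_pos]; omega
  obtain ⟨i0, hi0, hmax⟩ := Finset.exists_max_image F s hne
  obtain ⟨l, hl1, hl2, -⟩ := hs i0 hi0
  have hsub : F ⊆ l.toFinset := by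
    intro i hi
    obtain ⟨-, -, -, u, hu, hw, hiu⟩ := hs i hi
    have hle := hmax i hi
    rcases hl2 u (lt_of_lt_of_le hu hle) with h | h
    · rw [RE.wst_mono hle hw] at h
      simp at h
    · exact List.mem_toFinset.2 (h i hiu)
  have := Finset.card_le_card hsub
  have := l.toFinset_card_le
  omega

theorem T_of_supp {e n y : ℕ} {Ψ : Set (ℕ × ℕ)}
    (he : ∀ x : ℕ × ℕ, x ∈ Ψ ↔ ∃ s, RE.wst (ℕ × ℕ) e s x = true)
    (hn : ∃ F : Finset ℕ, F.card ≤ n ∧ supp Ψ y ⊆ F) {i : ℕ} (hi : i ∈ supp Ψ y) : T e n y i := by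
  obtain ⟨F, hF1, hF2⟩ := hn
  obtain ⟨u, hu, hiu⟩ := hi
  obtain ⟨s, hs⟩ := (he _).1 hu
  refine ⟨max s (u + 1), F.toList, by rw [Finset.length_toList]; exact hF1, ?_, u, by omega,
    RE.wst_mono (le_max_left _ _) hs, mem_bits.2 hiu⟩
  intro v _
  rcases h : RE.wst (ℕ × ℕ) e (max s (u + 1)) (y, v) with _ | _
  · exact Or.inl rfl
  · right
    intro a ha
    rw [Finset.mem_toList]
    exact hF2 ⟨v, (he _).2 ⟨_, h⟩, mem_bits.1 ha⟩

/-- the pair `(z, r)` is to be avoided -/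
def Bad (z r : ℕ) : Prop :=
  ∃ c ≤ z, ∃ y ≤ z, T c.unpair.1 c.unpair.2 y (2 * Nat.pair z r)

theorem Bad_re : REPred fun x : ℕ × ℕ => Bad x.1 x.2 := by
  refine RE.ex (p := fun (x : ℕ × ℕ) (c : ℕ) => c ≤ x.1 ∧ ∃ y ≤ x.1,
    T c.unpair.1 c.unpair.2 y (2 * Nat.pair x.1 x.2)) ?_
  refine RE.and (RE.le (by fun_prop) (by fun_prop)) ?_
  refine RE.ex (p := fun (x : (ℕ × ℕ) × ℕ) (y : ℕ) => y ≤ x.1.1 ∧
    T x.2.unpair.1 x.2.unpair.2 y (2 * Nat.pair x.1.1 x.1.2)) ?_
  refine RE.and (RE.le (by fun_prop) (by fun_prop)) ?_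
  exact RE.comp T_re (f := fun x : ((ℕ × ℕ) × ℕ) × ℕ =>
    (x.1.2.unpair.1, x.1.2.unpair.2, x.2, 2 * Nat.pair x.1.1.1 x.1.1.2)) (by fun_prop)

theorem Bad_finite (z : ℕ) : {r | Bad z r}.Finite := by
  have h1 : {r | Bad z r} ⊆ ⋃ c ∈ Set.Iic z, ⋃ y ∈ Set.Iic z,
      (fun r => 2 * Nat.pair z r) ⁻¹' {i | T c.unpair.1 c.unpair.2 y i} := by
    rintro r ⟨c, hc, y, hy, h⟩
    simp only [Set.mem_iUnion]
    exact ⟨c, hc, y, hy, h⟩
  refine Set.Finite.subset ?_ h1
  refine (Set.finite_Iic z).biUnion fun c _ => (Set.finite_Iic z).biUnion fun y _ => ?_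
  refine (T_finite _ _ _).preimage (Set.injOn_of_injective ?_)
  intro a b hab
  have h2 : Nat.pair z a = Nat.pair z b := by simpa using hab
  exact (Nat.pair_eq_pair.1 h2).2

theorem exists_not_bad (z : ℕ) : ∃ r, ¬ Bad z r := by
  by_contra hcon
  push Not at hcon
  have h := Bad_finite z
  rw [show {r | Bad z r} = Set.univ from Set.eq_univ_of_forall hcon] at h
  exact Set.infinite_univ h

open Classical in
/-- the diagonal function -/
noncomputable def j (z : ℕ) : ℕ := Nat.find (exists_not_bad z)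

theorem eq_j_iff {z r : ℕ} : r = j z ↔ (∀ r' < r, Bad z r') ∧ ¬ Bad z r := by
  classical
  constructor
  · rintro rfl
    refine ⟨fun r' hr' => ?_, Nat.find_spec (exists_not_bad z)⟩
    have := Nat.find_min (exists_not_bad z) hr'
    push Not at this
    exact this
  · rintro ⟨h1, h2⟩
    refine le_antisymm ?_ (Nat.find_min' _ h2)
    by_contra hc
    push Not at hc
    exact Nat.find_spec (exists_not_bad z) (h1 _ hc)

/-! ### The intermediate set -/

/-- the intermediate set -/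
def A (X B : Set ℕ) : Set ℕ :=
  {a | (∃ z ∈ B, a = 2 * Nat.pair z (j z)) ∨ ∃ k ∈ X, a = 2 * k + 1}

theorem even_mem {X B : Set ℕ} {z r : ℕ} : 2 * Nat.pair z r ∈ A X B ↔ z ∈ B ∧ r = j z := by
  constructor
  · rintro (⟨z', hz, h⟩ | ⟨k, -, h⟩)
    · have h1 : Nat.pair z r = Nat.pair z' (j z') := by omega
      obtain ⟨rfl, h2⟩ := Nat.pair_eq_pair.1 h1
      exact ⟨hz, h2⟩
    · omega
  · rintro ⟨hz, rfl⟩
    exact Or.inl ⟨z, hz, rfl⟩

theorem odd_mem {X B : Set ℕ} {k : ℕ} : 2 * k + 1 ∈ A X B ↔ k ∈ X := by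
  constructor
  · rintro (⟨z', -, h⟩ | ⟨k', hk, h⟩)
    · omega
    · have : k = k' := by omega
      rw [this]; exact hk
  · exact fun h => Or.inr ⟨k, h, rfl⟩

theorem red_right (X B : Set ℕ) : Red X (A X B) := by
  refine ⟨{p | p.2 = 2 ^ (2 * p.1 + 1)}, ?_, ?_, ?_⟩
  · exact RE.eq (by fun_prop) (cpow.comp (by fun_prop))
  · refine bttLike_iff.2 ⟨1, fun x => ⟨{2 * x + 1}, by simp, ?_⟩⟩
    rintro i ⟨u, hu, hi⟩
    have hu' : u = 2 ^ (2 * x + 1) := hu
    rw [hu', D_pow] at hi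
    simpa using hi
  · ext x
    constructor
    · intro hx
      refine ⟨2 ^ (2 * x + 1), rfl, ?_⟩
      rw [D_pow, Set.singleton_subset_iff]
      exact odd_mem.2 hx
    · rintro ⟨u, hu, h⟩
      have hu' : u = 2 ^ (2 * x + 1) := hu
      rw [hu', D_pow, Set.singleton_subset_iff] at h
      exact odd_mem.1 h

theorem red_left {X B : Set ℕ} (hK : Red Kᶜ X) (hX : Red X B) : Red (A X B) B := by
  obtain ⟨Θ, hΘ, hΘb, hΘK⟩ := red_trans hK hX
  obtain ⟨Λ, hΛ, hΛb, hΛX⟩ := hX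
  obtain ⟨f, hf, hfK⟩ := K_complete (W := fun n => Bad n.unpair.1 n.unpair.2)
    (RE.comp Bad_re (f := fun n : ℕ => n.unpair) (by fun_prop))
  have hnb : ∀ z r, ¬ Bad z r ↔ ∃ v, (f (Nat.pair z r), v) ∈ Θ ∧ D v ⊆ B := by
    intro z r
    have h1 : f (Nat.pair z r) ∈ Kᶜ ↔ f (Nat.pair z r) ∈ app Θ B := by rw [← hΘK]
    have h2 := hfK (Nat.pair z r)
    rw [Nat.unpair_pair] at h2
    rw [h2]
    exact h1
  refine ⟨{p | (∃ z r, p.1 = 2 * Nat.pair z r ∧ (∀ r' < r, Bad z r') ∧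
      ∃ v, (f (Nat.pair z r), v) ∈ Θ ∧ (∀ i ∈ bits p.2, i = z ∨ i ∈ bits v) ∧
        z ∈ bits p.2 ∧ ∀ i ∈ bits v, i ∈ bits p.2) ∨
    ∃ k, p.1 = 2 * k + 1 ∧ (k, p.2) ∈ Λ}, ?_, ?_, ?_⟩
  · refine RE.or ?_ ?_
    · refine RE.ex (p := fun (p : ℕ × ℕ) (z : ℕ) => ∃ r, p.1 = 2 * Nat.pair z r ∧
        (∀ r' < r, Bad z r') ∧ ∃ v, (f (Nat.pair z r), v) ∈ Θ ∧
        (∀ i ∈ bits p.2, i = z ∨ i ∈ bits v) ∧ z ∈ bits p.2 ∧ ∀ i ∈ bits v, i ∈ bits p.2) ?_
      refine RE.ex (p := fun (x : (ℕ × ℕ) × ℕ) (r : ℕ) => x.1.1 = 2 * Nat.pair x.2 r ∧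
        (∀ r' < r, Bad x.2 r') ∧ ∃ v, (f (Nat.pair x.2 r), v) ∈ Θ ∧
        (∀ i ∈ bits x.1.2, i = x.2 ∨ i ∈ bits v) ∧ x.2 ∈ bits x.1.2 ∧
        ∀ i ∈ bits v, i ∈ bits x.1.2) ?_
      refine RE.and (RE.eq (by fun_prop) (by fun_prop)) (RE.and ?_ ?_)
      · refine RE.all_lt (p := fun (x : ((ℕ × ℕ) × ℕ) × ℕ) (r' : ℕ) => Bad x.1.2 r')
          (f := fun x => x.2) ?_ (by fun_prop)
        exact RE.comp Bad_re (f := fun x : (((ℕ × ℕ) × ℕ) × ℕ) × ℕ => (x.1.1.2, x.2))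
          (by fun_prop)
      · refine RE.ex (p := fun (x : ((ℕ × ℕ) × ℕ) × ℕ) (v : ℕ) =>
          (f (Nat.pair x.1.2 x.2), v) ∈ Θ ∧ (∀ i ∈ bits x.1.1.2, i = x.1.2 ∨ i ∈ bits v) ∧
          x.1.2 ∈ bits x.1.1.2 ∧ ∀ i ∈ bits v, i ∈ bits x.1.1.2) ?_
        refine RE.and ?_ (RE.and ?_ (RE.and ?_ ?_))
        · have h1 : Computable fun x : (((ℕ × ℕ) × ℕ) × ℕ) × ℕ =>
              (f (Nat.pair x.1.1.2 x.1.2), x.2) :=
            (hf.comp (by fun_prop)).pair (by fun_prop)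
          exact RE.comp (p := fun p : ℕ × ℕ => p ∈ Θ) hΘ h1
        · refine RE.all_mem (p := fun (x : (((ℕ × ℕ) × ℕ) × ℕ) × ℕ) (i : ℕ) =>
            i = x.1.1.2 ∨ i ∈ bits x.2) (l := fun x => bits x.1.1.1.2) ?_ (by fun_prop)
          exact RE.or (RE.eq (by fun_prop) (by fun_prop))
            (RE.mem_list (by fun_prop) (by fun_prop))
        · exact RE.mem_list (by fun_prop) (by fun_prop)
        · refine RE.all_mem (p := fun (x : (((ℕ × ℕ) × ℕ) × ℕ) × ℕ) (i : ℕ) =>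
            i ∈ bits x.1.1.1.2) (l := fun x => bits x.2) ?_ (by fun_prop)
          exact RE.mem_list (by fun_prop) (by fun_prop)
    · refine RE.ex (p := fun (p : ℕ × ℕ) (k : ℕ) => p.1 = 2 * k + 1 ∧ (k, p.2) ∈ Λ) ?_
      exact RE.and (RE.eq (by fun_prop) (by fun_prop))
        (RE.comp (p := fun p : ℕ × ℕ => p ∈ Λ) hΛ (by fun_prop))
  · obtain ⟨n, hn⟩ := bttLike_iff.1 hΘb
    obtain ⟨m, hm⟩ := bttLike_iff.1 hΛb
    refine bttLike_iff.2 ⟨(n + 1) + m, fun x => ?_⟩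
    rcases Nat.even_or_odd' x with ⟨k, rfl | rfl⟩
    · obtain ⟨F, hF1, hF2⟩ := hn (f k)
      refine ⟨insert k.unpair.1 F, (Finset.card_insert_le _ _).trans (by omega), ?_⟩
      rintro i ⟨w, (⟨z, r, h1, -, v, hv, hw1, -, -⟩ | ⟨k', h1, -⟩), hi⟩
      · have h2 : k = Nat.pair z r := by
          have h1' : 2 * k = 2 * Nat.pair z r := h1
          omega
        rcases hw1 i (mem_bits.2 hi) with h | h
        · rw [h2, Nat.unpair_pair, h]
          simp
        · have h3 : i ∈ F := by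
            have := hF2 (show i ∈ supp Θ (f k) from ⟨v, by rw [h2]; exact hv, mem_bits.1 h⟩)
            simpa using this
          simp [h3]
      · have h1' : 2 * k = 2 * k' + 1 := h1
        omega
    · obtain ⟨F, hF1, hF2⟩ := hm k
      refine ⟨F, by omega, ?_⟩
      rintro i ⟨w, (⟨z, r, h1, -⟩ | ⟨k', h1, h2⟩), hi⟩
      · have h1' : 2 * k + 1 = 2 * Nat.pair z r := h1
        omega
      · have h1' : 2 * k + 1 = 2 * k' + 1 := h1
        have h3 : k' = k := by omega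
        subst h3
        exact hF2 ⟨w, h2, hi⟩
  · ext x
    constructor
    · intro hx
      rcases Nat.even_or_odd' x with ⟨k, rfl | rfl⟩
      · obtain ⟨z, r, rfl⟩ : ∃ z r, k = Nat.pair z r :=
          ⟨k.unpair.1, k.unpair.2, (Nat.pair_unpair k).symm⟩
        obtain ⟨hz, hr⟩ := even_mem.1 hx
        obtain ⟨hr1, hr2⟩ := eq_j_iff.1 hr
        obtain ⟨v, hv1, hv2⟩ := (hnb z r).1 hr2
        obtain ⟨w, hw⟩ := exists_index (z :: bits v)
        refine ⟨w, Or.inl ⟨z, r, rfl, hr1, v, hv1, ?_, ?_, ?_⟩, ?_⟩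
        · intro i hi
          have := (hw i).1 (mem_bits.1 hi)
          simpa using this
        · exact mem_bits.2 ((hw z).2 (by simp))
        · intro i hi
          exact mem_bits.2 ((hw i).2 (by simp [hi]))
        · intro i hi
          have := (hw i).1 hi
          rcases List.mem_cons.1 this with rfl | h
          · exact hz
          · exact hv2 (mem_bits.1 h)
      · have hk : k ∈ app Λ B := by rw [← hΛX]; exact odd_mem.1 hx
        obtain ⟨u, hu1, hu2⟩ := hk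
        exact ⟨u, Or.inr ⟨k, rfl, hu1⟩, hu2⟩
    · rintro ⟨w, (⟨z, r, h1, hr1, v, hv, -, hw2, hw3⟩ | ⟨k, h1, h2⟩), hw⟩
      · have h1' : x = 2 * Nat.pair z r := h1
        rw [h1', even_mem]
        refine ⟨hw (mem_bits.1 hw2), eq_j_iff.2 ⟨hr1, (hnb z r).2 ⟨v, hv, ?_⟩⟩⟩
        exact fun i hi => hw (mem_bits.1 (hw3 i (mem_bits.2 hi)))
      · have h1' : x = 2 * k + 1 := h1
        rw [h1', odd_mem, hΛX]
        exact ⟨w, h2, hw⟩

/-! ### Counting -/

theorem countable_ops : {Ψ : Set (ℕ × ℕ) | IsOp Ψ}.Countable := by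
  refine Set.Countable.mono ?_ (Set.countable_range fun e : ℕ =>
    {x : ℕ × ℕ | ∃ s, RE.wst (ℕ × ℕ) e s x = true})
  intro Ψ hΨ
  obtain ⟨e, he⟩ := RE.wst_univ (p := fun x : ℕ × ℕ => x ∈ Ψ) hΨ
  refine ⟨e, ?_⟩
  ext x
  exact (he x).symm

theorem countable_case1 (X : Set ℕ) : {B | Red (A X B) X}.Countable := by
  refine Set.Countable.mono ?_ (countable_ops.image fun Ψ =>
    {z | 2 * Nat.pair z (j z) ∈ app Ψ X})
  rintro B ⟨Ψ, hΨ, -, h⟩
  refine ⟨Ψ, hΨ, ?_⟩
  ext z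
  show 2 * Nat.pair z (j z) ∈ app Ψ X ↔ _
  rw [← h, even_mem]
  exact ⟨fun h => h.1, fun h => ⟨h, rfl⟩⟩

theorem countable_case2 (X : Set ℕ) : {B | Red B (A X B)}.Countable := by
  have h1 : {B | Red B (A X B)} ⊆ ⋃ e : ℕ, ⋃ n : ℕ, ⋃ F : Finset ℕ,
      {B | (∀ x : ℕ, x ∈ B ↔ ∃ u, (∃ s, RE.wst (ℕ × ℕ) e s (x, u) = true) ∧ D u ⊆ A X B) ∧
        (∀ y u z r, (∃ s, RE.wst (ℕ × ℕ) e s (y, u) = true) → 2 * Nat.pair z r ∈ D u →
          n ≤ z → y ≤ z → Bad z r) ∧ ∀ z < n, z ∈ B ↔ z ∈ F} := by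
    rintro B ⟨Ψ, hΨ, hb, h⟩
    obtain ⟨e, he⟩ := RE.wst_univ (p := fun x : ℕ × ℕ => x ∈ Ψ) hΨ
    obtain ⟨n, hn⟩ := bttLike_iff.1 hb
    classical
    simp only [Set.mem_iUnion]
    refine ⟨e, Nat.pair e n, (Finset.range (Nat.pair e n)).filter fun z => z ∈ B, ?_, ?_, ?_⟩
    · intro x
      conv_lhs => rw [h]
      constructor
      · rintro ⟨u, hu, hD⟩
        exact ⟨u, (he _).1 hu, hD⟩
      · rintro ⟨u, hu, hD⟩
        exact ⟨u, (he _).2 hu, hD⟩
    · intro y u z r hu hz h1 h2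
      refine ⟨Nat.pair e n, h1, y, h2, ?_⟩
      rw [Nat.unpair_pair]
      exact T_of_supp he (hn y) ⟨u, (he _).2 hu, hz⟩
    · intro z hz
      simp [hz]
  refine Set.Countable.mono h1 ?_
  refine Set.countable_iUnion fun e => Set.countable_iUnion fun n =>
    Set.countable_iUnion fun F => Set.Subsingleton.countable ?_
  rintro B ⟨hB1, hB2, hB3⟩ B' ⟨hB1', -, hB3'⟩
  have key : ∀ z, z ∈ B ↔ z ∈ B' := by
    intro z
    induction z using Nat.strong_induction_on with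
    | _ y ih =>
      by_cases hy : y < n
      · rw [hB3 y hy, hB3' y hy]
      · have hstep : ∀ u, (∃ s, RE.wst (ℕ × ℕ) e s (y, u) = true) →
            (D u ⊆ A X B ↔ D u ⊆ A X B') := by
          intro u hu
          have hel : ∀ i ∈ D u, (i ∈ A X B ↔ i ∈ A X B') := by
            intro i hi
            rcases Nat.even_or_odd' i with ⟨k, rfl | rfl⟩
            · obtain ⟨z, r, rfl⟩ : ∃ z r, k = Nat.pair z r :=
                ⟨k.unpair.1, k.unpair.2, (Nat.pair_unpair k).symm⟩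
              rw [even_mem, even_mem]
              by_cases hr : r = j z
              · have hnb := (eq_j_iff.1 hr).2
                have hlt : z < n ∨ z < y := by
                  by_contra hcon
                  push Not at hcon
                  exact hnb (hB2 y u z r hu hi hcon.1 hcon.2)
                have : z ∈ B ↔ z ∈ B' := by
                  rcases hlt with h | h
                  · rw [hB3 z h, hB3' z h]
                  · exact ih z h
                rw [this]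
              · simp [hr]
            · rw [odd_mem, odd_mem]
          exact ⟨fun h i hi => (hel i hi).1 (h hi), fun h i hi => (hel i hi).2 (h hi)⟩
        rw [hB1 y, hB1' y]
        exact exists_congr fun u => and_congr_right fun hu => hstep u hu
  ext z
  exact key z

/-- **Answer to Q1 (negative).** Every btte-degree above the degree of the complement of the
halting set has at most countably many minimal covers in the btte-degrees; in particular the
cardinality of the set of the minimal covers of the degree of the complement of the halting set is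
less than the cardinality of the continuum. -/
theorem result :
    (∀ a : Degree, deg Kᶜ ≤ a → {b : Degree | a ⋖ b}.Countable) ∧
      Cardinal.mk {b : Degree // deg Kᶜ ⋖ b} < Cardinal.continuum := by
  have h1 : ∀ a : Degree, deg Kᶜ ≤ a → {b : Degree | a ⋖ b}.Countable := by
    intro a
    induction a using Quotient.inductionOn with
    | _ X =>
      intro hK
      obtain ⟨X⟩ := X
      have hKX : Red Kᶜ X := hK
      have hc := ((countable_case1 X).union (countable_case2 X)).image deg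
      refine hc.mono ?_
      intro b
      induction b using Quotient.inductionOn with
      | _ B =>
        intro hb
        obtain ⟨B⟩ := B
        have hXB : Red X B := hb.lt.le
        refine ⟨B, ?_, rfl⟩
        have h2 : deg X ≤ deg (A X B) := red_right X B
        have h3 : deg (A X B) ≤ deg B := red_left hKX hXB
        rcases h2.eq_or_lt with h4 | h4
        · left
          exact show Red (A X B) X from h4.ge
        · right
          rcases h3.eq_or_lt with h5 | h5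
          · exact show Red B (A X B) from h5.ge
          · exact absurd h5 (hb.2 h4)
  refine ⟨h1, ?_⟩
  have h2 : Cardinal.mk {b : Degree // deg Kᶜ ⋖ b} ≤ Cardinal.aleph0 :=
    Cardinal.le_aleph0_iff_set_countable.2 (h1 _ le_rfl)
  exact lt_of_le_of_lt h2 Cardinal.aleph0_lt_continuum

end Pool.Agent.Results.MP_36bef2_lc.CountablyMany
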